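import Pool.Agent.X79.BC7
import Pool.Agent.X79.BC9
import Pool.Agent.H818R2.Ram.Erdos

/-!
# Diagonal Ramsey colourings whose red graph is a union of few bicliques

A two-colouring of the edges of the complete graph on `Fin n` is a graph `G` (red) with its
complement (blue). The least number of red complete bipartite graphs whose union is the red graph
is the red biclique cover number; its base two logarithm is the nondeterministic communication
complexity of the colouring.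
-/

namespace Pool.Agent.Results.MP_28724c_co.BicliqueCovers

open Finset

/-- The colouring of the edges of `K_n` with colour classes `G` and `Gᶜ` has no monochromatic
`K_k`. -/
def NoMono {n : ℕ} (G : SimpleGraph (Fin n)) (k : ℕ) : Prop :=
  G.CliqueFree k ∧ Gᶜ.CliqueFree k

/-- The graph `G` is the union of `t` complete bipartite graphs with sides `A i`, `B i`. -/
def BicliqueUnion {n : ℕ} (G : SimpleGraph (Fin n)) (t : ℕ) : Prop :=
  ∃ A B : Fin t → Finset (Fin n), ∀ x y : Fin n,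
    G.Adj x y ↔ ∃ i, (x ∈ A i ∧ y ∈ B i) ∨ (x ∈ B i ∧ y ∈ A i)

/-- The diagonal Ramsey number `R(k,k)`. -/
noncomputable def ramsey (k : ℕ) : ℕ :=
  sInf {n : ℕ | ∀ G : SimpleGraph (Fin n), ¬ NoMono G k}

theorem ramsey_eq (k : ℕ) : ramsey k = Pool.Agent.H818R2.Ram.R k k := by
  unfold ramsey Pool.Agent.H818R2.Ram.R Pool.Agent.H818R2.Ram.Arrows
  congr 1
  ext n
  simp only [Set.mem_ofPred_eq]
  apply forall_congr'
  intro G
  unfold NoMono SimpleGraph.CliqueFree
  constructor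
  · intro h
    by_contra hcon
    push Not at hcon
    exact h hcon
  · rintro (⟨s, hs⟩ | ⟨s, hs⟩) ⟨h1, h2⟩
    · exact h1 s hs
    · exact h2 s hs

/-- we may assume that there is at least one biclique -/
lemma one_le {n t : ℕ} {G : SimpleGraph (Fin n)} (h : BicliqueUnion G t) {M : ℝ} (hM : 1 ≤ M)
    (ht : (t : ℝ) ≤ M) : ∃ t' : ℕ, 1 ≤ t' ∧ (t' : ℝ) ≤ M ∧ BicliqueUnion G t' := by
  rcases Nat.eq_zero_or_pos t with rfl | hpos
  · refine ⟨1, le_rfl, by simpa using hM, fun _ => ∅, fun _ => ∅, fun x y => ?_⟩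
    obtain ⟨A, B, hAB⟩ := h
    rw [hAB x y]
    constructor
    · rintro ⟨i, -⟩
      exact i.elim0
    · rintro ⟨i, hi⟩
      simp at hi
  · exact ⟨t, hpos, ht, h⟩

/-- **Main result.** -/
theorem result :
    -- (1) explicit bound
    (∀ (n k t a : ℕ) (G : SimpleGraph (Fin n)), 1 ≤ t → 1 ≤ a → a ≤ k → NoMono G k →
      BicliqueUnion G t →
      (n : ℝ) ≤ ((a + (k - 1)).choose a + 4 * k : ℕ) *
        (4 * (k : ℝ) / a) ^ (Real.logb 4 (16 * k * t))) ∧
    -- (2) the growth rate for at most `exp (γ k)` bicliques is asymptotic to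
    -- `(γ / 2) log₂ (1 / γ)` as `γ → 0`
    (∀ ε : ℝ, 0 < ε → ε < 1 → ∃ γ₀ : ℝ, 0 < γ₀ ∧ ∀ γ : ℝ, 0 < γ → γ < γ₀ →
      ∃ K : ℕ, ∀ k : ℕ, K ≤ k →
        (∀ (n t : ℕ) (G : SimpleGraph (Fin n)), 1 ≤ n → NoMono G k → BicliqueUnion G t →
          (t : ℝ) ≤ Real.exp (γ * k) →
          Real.log n ≤ (1 + ε) * (γ / 2 * Real.logb 2 (1 / γ)) * k) ∧
        (∃ (n t : ℕ) (G : SimpleGraph (Fin n)), NoMono G k ∧ BicliqueUnion G t ∧
          (t : ℝ) ≤ Real.exp (γ * k) ∧
          (1 - ε) * (γ / 2 * Real.logb 2 (1 / γ)) * k ≤ Real.log n)) ∧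
    -- (3) for large `k`, the red graph of an extremal colouring (on `R(k,k) - 1` vertices) is not
    -- a union of at most `exp (k / 20)` bicliques
    (∃ K : ℕ, ∀ k : ℕ, K ≤ k → ∀ (n t : ℕ) (G : SimpleGraph (Fin n)), n + 1 = ramsey k →
      NoMono G k → BicliqueUnion G t → Real.exp ((k : ℝ) / 20) < t) := by
  refine ⟨?_, ?_, ?_⟩
  · intro n k t a G ht ha hak hG ⟨A, B, hAB⟩
    have h := Pool.Agent.X79.BC.upper G (by omega : 1 ≤ k) ht ha hak hG.1 hG.2 A B hAB
    rw [Fintype.card_fin] at h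
    have e : ((16 * k * t : ℕ) : ℝ) = 16 * k * t := by push_cast; ring
    rw [e] at h
    exact h
  · intro ε hε0 hε1
    obtain ⟨γ1, hγ1, hU⟩ := Pool.Agent.X79.BC.rate_upper ε hε0
    obtain ⟨γ2, hγ2, hL⟩ := Pool.Agent.X79.BC.rate_lower ε hε0 hε1
    refine ⟨min γ1 γ2, lt_min hγ1 hγ2, fun γ hγ0 hγ => ?_⟩
    obtain ⟨K1, hK1⟩ := hU γ hγ0 (hγ.trans_le (min_le_left _ _))
    obtain ⟨K2, hK2⟩ := hL γ hγ0 (hγ.trans_le (min_le_right _ _))
    refine ⟨max K1 K2, fun k hk => ⟨?_, ?_⟩⟩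
    · intro n t G hn hG hB ht
      have hexp : (1 : ℝ) ≤ Real.exp (γ * k) := Real.one_le_exp (by positivity)
      obtain ⟨t', ht1, ht', A, B, hAB⟩ := one_le hB hexp ht
      exact hK1 k (by omega) n t' G A B hn ht1 ht' hG.1 hG.2 hAB
    · obtain ⟨n, t, F, A, B, -, ht, h1, h2, hAB, hn⟩ := hK2 k (by omega)
      exact ⟨n, t, F, ⟨h1, h2⟩, ⟨A, B, hAB⟩, ht, hn⟩
  · obtain ⟨K, hK2, hK⟩ := Pool.Agent.X79.BC.err_small (1 / 64) (1 / 100) (by norm_num)
      (by norm_num) (by norm_num)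
    refine ⟨max K 100, fun k hk n t G hn hG hB => ?_⟩
    by_contra hcon
    push Not at hcon
    have hk100 : 100 ≤ k := by omega
    have hkr : (100 : ℝ) ≤ k := by exact_mod_cast hk100
    have hexp : (1 : ℝ) ≤ Real.exp ((k : ℝ) / 20) := Real.one_le_exp (by positivity)
    obtain ⟨t', ht1, ht', A, B, hAB⟩ := one_le hB hexp hcon
    have hE := Pool.Agent.H818R2.Ram.erdos_lower (k := k) (by omega)
    rw [← ramsey_eq, ← hn] at hE
    have hE' : ((2 : ℝ) ^ k) < ((n : ℝ) + 1) ^ 2 := by exact_mod_cast hE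
    have hl2a := Real.log_two_gt_d9
    have hl2b := Real.log_two_lt_d9
    have h1 : (k : ℝ) * Real.log 2 < 2 * Real.log ((n : ℝ) + 1) := by
      have := Real.log_lt_log (by positivity) hE'
      rw [Real.log_pow, Real.log_pow] at this
      push_cast at this
      exact this
    have hn1 : 1 ≤ n := by
      by_contra h0
      have h0' : n = 0 := by omega
      rw [h0'] at h1
      simp only [Nat.cast_zero, zero_add, Real.log_one, mul_zero] at h1
      nlinarith
    have hn1' : (1 : ℝ) ≤ n := by exact_mod_cast hn1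
    have h2 : Real.log ((n : ℝ) + 1) ≤ Real.log 2 + Real.log n := by
      rw [← Real.log_mul (by norm_num) (by linarith)]
      exact Real.log_le_log (by linarith) (by linarith)
    have ht'' : (t' : ℝ) ≤ Real.exp (1 / 20 * (k : ℝ)) := by
      rw [show 1 / 20 * (k : ℝ) = k / 20 by ring]
      exact ht'
    have h3 := Pool.Agent.X79.BC.upper_log G (β := 1 / 64) (γ := 1 / 20) (by norm_num)
      (by norm_num) (by omega : 2 ≤ k) hn1 ht1 ht'' hG.1 hG.2 A B hAB
    have h4 := hK k (by omega)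
    have e1 : Real.log (1 / (1 / 64 : ℝ)) = 6 * Real.log 2 := by
      rw [show (1 / (1 / 64) : ℝ) = 2 ^ 6 by norm_num, Real.log_pow]
      norm_num
    have e2 : Real.log (4 / (1 / 64 : ℝ)) = 8 * Real.log 2 := by
      rw [show (4 / (1 / 64) : ℝ) = 2 ^ 8 by norm_num, Real.log_pow]
      norm_num
    have e3 : Real.log (4 : ℝ) = 2 * Real.log 2 := by
      rw [show (4 : ℝ) = 2 ^ 2 by norm_num, Real.log_pow]
      norm_num
    have e4 : 2 * (1 / 64 : ℝ) + 1 / 64 * Real.log (1 / (1 / 64 : ℝ)) +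
        1 / 20 / Real.log 4 * Real.log (4 / (1 / 64 : ℝ)) ≤ 0.2965 := by
      rw [e1, e2, e3]
      have e5 : (1 / 20 : ℝ) / (2 * Real.log 2) * (8 * Real.log 2) = 1 / 5 := by
        have : Real.log 2 ≠ 0 := by linarith
        field_simp
        norm_num
      rw [e5]
      linarith
    have h5 : Real.log n ≤ 0.2965 * k + 1 / 100 * k := by
      have e6 := mul_le_mul_of_nonneg_left e4 (by linarith : (0 : ℝ) ≤ k)
      linarith
    nlinarith

end Pool.Agent.Results.MP_28724c_co.BicliqueCovers
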