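import Pool.Agent.X46.RankUp
import Pool.Agent.X46.RankLow

/-!
# Diagonal Ramsey colourings of small rank over the field with two elements

A two-colouring of the edges of the complete graph on `n` vertices is a graph `G` on `Fin n` together
with its complement; it has no monochromatic `K_k` if `G` and `Gᶜ` are free of cliques with `k`
vertices. `rankF2 G` is the rank of the adjacency matrix of `G` over the field with two elements.

1. If `rankF2 G ≤ 2 m` and `G` has no independent set with `k` vertices, then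
   `n ≤ (k - 1) (2 ^ m + 1)`.
2. This is best possible, also for colourings without monochromatic `K_k`: for all `m`, `t` there is
   a graph of rank at most `2 m` with `(k - 1) (2 ^ m + 1)` vertices, `k - 1 = t (2 ^ m - 1)`, without
   independent set of size `k` and without clique of size `2 m + 2`.
3. If `2 m + 2 ≤ k` and `n ≤ 2 ^ (m - m ^ 2 / (2 k))` then there is a colouring with `n` vertices of
   rank at most `2 m` without monochromatic `K_k`.
4. So for `0 < ρ ≤ 1` the largest `n = order k r` for which there is a colouring on `n` vertices of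
   rank at most `r = ⌊ρ k⌋` without monochromatic `K_k` satisfies
   `ρ / 2 - ρ ^ 2 / 8 - o(1) ≤ log₂ n / k ≤ ρ / 2 + o(1)`.

Outline. (1) Let `u` be a nonzero vector of the column space `W` of the adjacency matrix `A`; the
matrix of the indices `i` with `u i = 0` has rank at most `rank A - 2`. Averaging over `u`, with the
zero rows counted separately, gives the exact bound by induction. (2) `t` copies of each nonzero
vector of the symplectic space of dimension `2 m`. (3) Random vectors of this space; the tuples of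
pairwise orthogonal vectors are counted recursively, and `k` vectors with all products `1` span a
space of dimension at least `k - 1`.
-/

set_option autoImplicit false
open Finset

namespace Pool.Agent.Results.MP_28724c_co.BinaryRank

open scoped Classical in
/-- the rank over the field with two elements of the adjacency matrix of a graph -/
noncomputable def rankF2 {n : ℕ} (G : SimpleGraph (Fin n)) : ℕ := (G.adjMatrix (ZMod 2)).rank

/-- The largest `n` such that there is a colouring of the edges of the complete graph on `n` vertices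
of rank at most `r` without monochromatic `K_k`. -/
noncomputable def order (k r : ℕ) : ℕ :=
  sSup {n : ℕ | ∃ G : SimpleGraph (Fin n), rankF2 G ≤ r ∧ G.CliqueFree k ∧ Gᶜ.CliqueFree k}

theorem part1 (n k m : ℕ) (G : SimpleGraph (Fin n)) (hk : 1 ≤ k) (hr : rankF2 G ≤ 2 * m)
    (hG : Gᶜ.CliqueFree k) : n ≤ (k - 1) * (2 ^ m + 1) := by
  classical
  exact Pool.Agent.X46.Rk.upper n k m hk G (by unfold rankF2 at hr; convert hr) hG

theorem part3 (n k m : ℕ) (hk : 2 * m + 2 ≤ k)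
    (hn : (n : ℝ) ≤ 2 ^ ((m : ℝ) - (m : ℝ) ^ 2 / (2 * k))) :
    ∃ G : SimpleGraph (Fin n), rankF2 G ≤ 2 * m ∧ G.CliqueFree k ∧ Gᶜ.CliqueFree k := by
  classical
  have hk0 : (0 : ℝ) < k := by
    have : 0 < k := by omega
    exact_mod_cast this
  obtain ⟨G, h1, h2, h3⟩ := Pool.Agent.X46.Rk.lower n k m hk (by
    have h4 : (n : ℝ) ^ (2 * k) ≤ (2 : ℝ) ^ (2 * (m : ℝ) * k - (m : ℝ) ^ 2) := by
      calc (n : ℝ) ^ (2 * k) ≤ ((2 : ℝ) ^ ((m : ℝ) - (m : ℝ) ^ 2 / (2 * k))) ^ (2 * k) :=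
            pow_le_pow_left₀ (Nat.cast_nonneg _) hn _
        _ = (2 : ℝ) ^ (2 * (m : ℝ) * k - (m : ℝ) ^ 2) := by
          rw [← Real.rpow_natCast, ← Real.rpow_mul (by norm_num)]
          congr 1
          push_cast
          field_simp
    have h5 : (n : ℝ) ^ (2 * k) * 2 ^ (m ^ 2) ≤ 2 ^ (2 * m * k) := by
      calc (n : ℝ) ^ (2 * k) * 2 ^ (m ^ 2) ≤
            (2 : ℝ) ^ (2 * (m : ℝ) * k - (m : ℝ) ^ 2) * 2 ^ (m ^ 2) :=
            mul_le_mul_of_nonneg_right h4 (by positivity)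
        _ = 2 ^ (2 * m * k) := by
          rw [← Real.rpow_natCast 2 (m ^ 2), ← Real.rpow_add (by norm_num),
            ← Real.rpow_natCast 2 (2 * m * k)]
          congr 1
          push_cast
          ring
    exact_mod_cast h5)
  exact ⟨G, by unfold rankF2; exact h1, h2, h3⟩

theorem bdd (k r : ℕ) (hk : 1 ≤ k) : ∀ n ∈ {n : ℕ | ∃ G : SimpleGraph (Fin n), rankF2 G ≤ r ∧
    G.CliqueFree k ∧ Gᶜ.CliqueFree k}, n ≤ (k - 1) * (2 ^ ((r + 1) / 2) + 1) := by
  rintro n ⟨G, h1, -, h3⟩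
  exact part1 n k ((r + 1) / 2) G hk (by omega) h3

theorem nonempty (k r : ℕ) (hk : 1 ≤ k) : {n : ℕ | ∃ G : SimpleGraph (Fin n), rankF2 G ≤ r ∧
    G.CliqueFree k ∧ Gᶜ.CliqueFree k}.Nonempty := by
  classical
  refine ⟨0, ⊥, ?_, ?_, ?_⟩
  · unfold rankF2
    exact (Matrix.rank_le_width _).trans (Nat.zero_le r)
  · intro S hS
    have h1 := hS.card_eq
    have h2 : S = ∅ := Finset.eq_empty_of_isEmpty S
    rw [h2, card_empty] at h1
    omega
  · intro S hS
    have h1 := hS.card_eq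
    have h2 : S = ∅ := Finset.eq_empty_of_isEmpty S
    rw [h2, card_empty] at h1
    omega

theorem order_le (k r : ℕ) (hk : 1 ≤ k) : order k r ≤ (k - 1) * (2 ^ ((r + 1) / 2) + 1) :=
  bdd k r hk _ (Nat.sSup_mem (nonempty k r hk) ⟨_, bdd k r hk⟩)

theorem le_order (k r n : ℕ) (hk : 1 ≤ k) (h : ∃ G : SimpleGraph (Fin n), rankF2 G ≤ r ∧
    G.CliqueFree k ∧ Gᶜ.CliqueFree k) : n ≤ order k r :=
  le_csSup ⟨_, bdd k r hk⟩ h

theorem log_upper (ρ ε : ℝ) (hρ : 0 < ρ) (hε : 0 < ε) : ∃ K : ℕ, ∀ k : ℕ, K ≤ k →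
    Real.log (order k ⌊ρ * k⌋₊) / k ≤ (ρ / 2 + ε) * Real.log 2 := by
  have hl2 : 0 < Real.log 2 := Real.log_pos (by norm_num)
  set c : ℝ := ε * Real.log 2 / 2 with hc
  have hc0 : 0 < c := by positivity
  obtain ⟨K, hK⟩ := exists_nat_ge ((2 * Real.log 2 - Real.log c) / c)
  refine ⟨max K 1, fun k hk => ?_⟩
  have hk1 : 1 ≤ k := (le_max_right _ _).trans hk
  have hk0 : (0 : ℝ) < k := by exact_mod_cast hk1
  have hKk : ((2 * Real.log 2 - Real.log c) / c) ≤ k :=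
    hK.trans (by exact_mod_cast (le_max_left _ _).trans hk)
  rw [div_le_iff₀ hc0] at hKk
  rw [div_le_iff₀ hk0]
  rcases Nat.eq_zero_or_pos (order k ⌊ρ * k⌋₊) with h0 | h0
  · rw [h0]
    simp only [Nat.cast_zero, Real.log_zero]
    positivity
  set r := ⌊ρ * k⌋₊ with hr
  have hrle : (r : ℝ) ≤ ρ * k := Nat.floor_le (by positivity)
  have h1 := order_le k r hk1
  have h2 : (order k r : ℝ) ≤ k * 2 ^ ((r + 1) / 2 + 1) := by
    have h3 : order k r ≤ k * 2 ^ ((r + 1) / 2 + 1) := by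
      refine h1.trans (Nat.mul_le_mul (Nat.sub_le _ _) ?_)
      rw [pow_succ]
      have := Nat.one_le_two_pow (n := (r + 1) / 2)
      omega
    exact_mod_cast h3
  have h4 : Real.log (order k r) ≤ Real.log k + ((r + 1) / 2 + 1 : ℕ) * Real.log 2 := by
    rw [← Real.log_pow, ← Real.log_mul (by positivity) (by positivity)]
    exact Real.log_le_log (by exact_mod_cast h0) h2
  have h5 : (((r + 1) / 2 + 1 : ℕ) : ℝ) ≤ ρ * k / 2 + 2 := by
    have h6 : 2 * ((r + 1) / 2) ≤ r + 1 := Nat.mul_div_le _ _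
    have h7 : (2 : ℝ) * (((r + 1) / 2 : ℕ) : ℝ) ≤ r + 1 := by exact_mod_cast h6
    push_cast
    linarith
  have h8 : Real.log k ≤ c * k - Real.log c := by
    have h9 := Real.log_le_sub_one_of_pos (show 0 < c * k by positivity)
    rw [Real.log_mul hc0.ne' hk0.ne'] at h9
    linarith
  have h10 : ((((r + 1) / 2 + 1 : ℕ) : ℝ)) * Real.log 2 ≤ (ρ * k / 2 + 2) * Real.log 2 :=
    mul_le_mul_of_nonneg_right h5 hl2.le
  have h11 : ε * Real.log 2 * k = 2 * (c * k) := by rw [hc]; ring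
  nlinarith

theorem log_lower (ρ ε : ℝ) (hρ : 0 < ρ) (hρ1 : ρ ≤ 1) (hε : 0 < ε) : ∃ K : ℕ, ∀ k : ℕ, K ≤ k →
    (ρ / 2 - ρ ^ 2 / 8 - ε) * Real.log 2 ≤ Real.log (order k ⌊ρ * k⌋₊) / k := by
  have hl2 : 0 < Real.log 2 := Real.log_pos (by norm_num)
  obtain ⟨K, hK⟩ := exists_nat_ge (4 / ε)
  obtain ⟨K', hK'⟩ := exists_nat_ge (4 / ρ)
  refine ⟨max (max K K') 1, fun k hk => ?_⟩
  have hk1 : 1 ≤ k := (le_max_right _ _).trans hk
  have hk0 : (0 : ℝ) < k := by exact_mod_cast hk1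
  have hKk : (4 / ε) ≤ k :=
    hK.trans (by exact_mod_cast ((le_max_left _ _).trans (le_max_left _ _)).trans hk)
  have hKk' : (4 / ρ) ≤ k :=
    hK'.trans (by exact_mod_cast ((le_max_right _ _).trans (le_max_left _ _)).trans hk)
  rw [div_le_iff₀ hε] at hKk
  rw [div_le_iff₀ hρ] at hKk'
  rw [le_div_iff₀ hk0]
  set r := ⌊ρ * k⌋₊ with hr
  have hrle : (r : ℝ) ≤ ρ * k := Nat.floor_le (by positivity)
  have hrlt : ρ * k < r + 1 := Nat.lt_floor_add_one _
  have hr3 : 3 ≤ r := by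
    have : (3 : ℝ) < r + 1 := by linarith
    have h1 : 3 < r + 1 := by exact_mod_cast this
    omega
  have hrk : r ≤ k := by
    have : (r : ℝ) ≤ k := by nlinarith
    exact_mod_cast this
  set m := (r - 2) / 2 with hm
  have hm1 : 2 * m + 2 ≤ r := by omega
  have hm2 : r ≤ 2 * m + 3 := by omega
  have hm1' : 2 * (m : ℝ) + 2 ≤ r := by exact_mod_cast hm1
  have hm2' : (r : ℝ) ≤ 2 * m + 3 := by exact_mod_cast hm2
  set x : ℝ := (m : ℝ) - (m : ℝ) ^ 2 / (2 * k) with hx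
  have hx0 : 0 ≤ x := by
    rw [hx, sub_nonneg, div_le_iff₀ (by positivity)]
    have : (m : ℝ) ≤ k := by
      have : m ≤ k := by omega
      exact_mod_cast this
    nlinarith [Nat.cast_nonneg (α := ℝ) m]
  have hp : (1 : ℝ) ≤ 2 ^ x := Real.one_le_rpow (by norm_num) hx0
  have h1 : ⌊(2 : ℝ) ^ x⌋₊ ≤ order k r := by
    apply le_order k r _ hk1
    obtain ⟨G, g1, g2, g3⟩ := part3 ⌊(2 : ℝ) ^ x⌋₊ k m (by omega) (Nat.floor_le (by positivity))
    exact ⟨G, by omega, g2, g3⟩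
  have h2 : (2 : ℝ) ^ x / 2 ≤ ⌊(2 : ℝ) ^ x⌋₊ := by
    have h3 := Nat.lt_floor_add_one ((2 : ℝ) ^ x)
    have h4 : 1 ≤ ⌊(2 : ℝ) ^ x⌋₊ := Nat.le_floor (by simpa using hp)
    have h4' : (1 : ℝ) ≤ ⌊(2 : ℝ) ^ x⌋₊ := by exact_mod_cast h4
    linarith
  have h5 : (2 : ℝ) ^ (x - 1) ≤ order k r := by
    rw [Real.rpow_sub_one (by norm_num)]
    exact h2.trans (by exact_mod_cast h1)
  have h6 : (x - 1) * Real.log 2 ≤ Real.log (order k r) := by
    rw [← Real.log_rpow (by norm_num)]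
    exact Real.log_le_log (by positivity) h5
  have h7 : (m : ℝ) ^ 2 / (2 * k) ≤ ρ ^ 2 * k / 8 := by
    rw [div_le_iff₀ (by positivity)]
    have h8 : (m : ℝ) ≤ ρ * k / 2 := by linarith
    have h9 : (m : ℝ) ^ 2 ≤ (ρ * k / 2) ^ 2 := pow_le_pow_left₀ (Nat.cast_nonneg _) h8 2
    nlinarith
  have h10 : (ρ / 2 - ρ ^ 2 / 8 - ε) * k ≤ x - 1 := by
    rw [hx]
    nlinarith
  calc (ρ / 2 - ρ ^ 2 / 8 - ε) * Real.log 2 * k = (ρ / 2 - ρ ^ 2 / 8 - ε) * k * Real.log 2 := by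
        ring
    _ ≤ (x - 1) * Real.log 2 := mul_le_mul_of_nonneg_right h10 hl2.le
    _ ≤ _ := h6

/-- **Diagonal Ramsey numbers of colourings of small rank over the field with two elements.** -/
theorem result :
    (∀ (n k m : ℕ) (G : SimpleGraph (Fin n)), 1 ≤ k → rankF2 G ≤ 2 * m → Gᶜ.CliqueFree k →
      n ≤ (k - 1) * (2 ^ m + 1)) ∧
    (∀ m t : ℕ, ∃ G : SimpleGraph (Fin (t * (2 ^ m - 1) * (2 ^ m + 1))), rankF2 G ≤ 2 * m ∧
      Gᶜ.CliqueFree (t * (2 ^ m - 1) + 1) ∧ G.CliqueFree (2 * m + 2)) ∧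
    (∀ n k m : ℕ, 2 * m + 2 ≤ k → (n : ℝ) ≤ 2 ^ ((m : ℝ) - (m : ℝ) ^ 2 / (2 * k)) →
      ∃ G : SimpleGraph (Fin n), rankF2 G ≤ 2 * m ∧ G.CliqueFree k ∧ Gᶜ.CliqueFree k) ∧
    (∀ ρ ε : ℝ, 0 < ρ → ρ ≤ 1 → 0 < ε → ∃ K : ℕ, ∀ k : ℕ, K ≤ k →
      (ρ / 2 - ρ ^ 2 / 8 - ε) * Real.log 2 ≤ Real.log (order k ⌊ρ * k⌋₊) / k ∧
      Real.log (order k ⌊ρ * k⌋₊) / k ≤ (ρ / 2 + ε) * Real.log 2) := by
  classical
  refine ⟨fun n k m G hk hr hG => part1 n k m G hk hr hG, fun m t => ?_,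
    fun n k m hk hn => part3 n k m hk hn, fun ρ ε hρ hρ1 hε => ?_⟩
  · obtain ⟨G, h1, h2, h3⟩ := Pool.Agent.X46.Rk.tight m t
    exact ⟨G, by unfold rankF2; exact h1, h2, h3⟩
  · obtain ⟨K1, h1⟩ := log_lower ρ ε hρ hρ1 hε
    obtain ⟨K2, h2⟩ := log_upper ρ ε hρ hε
    exact ⟨max K1 K2, fun k hk => ⟨h1 k ((le_max_left _ _).trans hk),
      h2 k ((le_max_right _ _).trans hk)⟩⟩

end Pool.Agent.Results.MP_28724c_co.BinaryRank
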