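import Mathlib
import Pool.Agent.X79.DistCol2

/-!
# Diagonal Ramsey colourings that depend only on a distance

No colouring of the `m`-subsets of `[N]` in which the colour of `{A, B}` depends only on `|A ∩ B|`,
and no colouring of `[q]^M` in which the colour depends only on the Hamming distance, gives an
exponential lower bound for `R(k,k)`: if it has no monochromatic `K_k` then the number `n` of its
vertices satisfies `log n ≤ k ^ ε` for every `ε > 0` and all `k ≥ K(ε)`.
-/

namespace Pool.Agent.Results.MP_28724c_co.DistanceColourings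

open Pool.Agent.X79.DC

/-- Comparison used twice. -/
lemma small_pow (ε : ℝ) (hε : 0 < ε) : ∃ r : ℕ, 1 ≤ r ∧ ∀ B : ℝ, ∃ K : ℕ, 2 ≤ K ∧ ∀ k : ℕ,
    K ≤ k → (∀ x : ℝ, 0 ≤ x → x ^ r ≤ k → x * Real.log k ≤ (k : ℝ) ^ ε ∧ x ≤ (k : ℝ) ^ ε) ∧
      B * Real.log k ≤ (k : ℝ) ^ ε ∧ B ≤ (k : ℝ) ^ ε := by
  obtain ⟨r, hr⟩ := exists_nat_gt (2 / ε)
  have hr0 : (0 : ℝ) < r := lt_trans (by positivity) hr
  have hr1 : 1 ≤ r := by exact_mod_cast hr0
  refine ⟨r, hr1, fun B => ?_⟩
  have hlog : Filter.Tendsto (fun k : ℕ => (k : ℝ) ^ (ε / 2) / Real.log k) Filter.atTop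
      Filter.atTop := by
    have h1 : Filter.Tendsto (fun x : ℝ => Real.log x / x ^ (ε / 2)) Filter.atTop (nhds 0) :=
      (isLittleO_log_rpow_atTop (by positivity)).tendsto_div_nhds_zero
    have h2 : Filter.Tendsto (fun x : ℝ => Real.log x / x ^ (ε / 2)) Filter.atTop
        (nhdsWithin 0 (Set.Ioi 0)) := by
      refine tendsto_nhdsWithin_iff.2 ⟨h1, ?_⟩
      filter_upwards [Filter.eventually_gt_atTop 1] with x hx
      exact div_pos (Real.log_pos hx) (Real.rpow_pos_of_pos (by linarith) _)
    have h3 := (tendsto_inv_nhdsGT_zero (𝕜 := ℝ)).comp h2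
    have h4 : Filter.Tendsto (fun x : ℝ => x ^ (ε / 2) / Real.log x) Filter.atTop
        Filter.atTop := by
      refine h3.congr fun x => ?_
      simp [Function.comp, inv_div]
    exact h4.comp tendsto_natCast_atTop_atTop
  have hpow : Filter.Tendsto (fun k : ℕ => (k : ℝ) ^ (ε / 2)) Filter.atTop Filter.atTop :=
    (tendsto_rpow_atTop (by positivity)).comp tendsto_natCast_atTop_atTop
  obtain ⟨K1, hK1⟩ := Filter.eventually_atTop.1 (hlog.eventually_ge_atTop 1)
  obtain ⟨K2, hK2⟩ := Filter.eventually_atTop.1 (hpow.eventually_ge_atTop (max B 1))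
  refine ⟨max (max K1 K2) 3, by omega, fun k hk => ?_⟩
  have hk3 : (3 : ℝ) ≤ k := by exact_mod_cast (by omega : 3 ≤ k)
  have hkpos : (0 : ℝ) < k := by linarith
  have hlogpos : 0 < Real.log k := Real.log_pos (by linarith)
  have e1 : Real.log k ≤ (k : ℝ) ^ (ε / 2) := by
    have := hK1 k (by omega)
    rw [le_div_iff₀ hlogpos, one_mul] at this
    exact this
  have e2 : max B 1 ≤ (k : ℝ) ^ (ε / 2) := hK2 k (by omega)
  have e3 : (k : ℝ) ^ (ε / 2) * (k : ℝ) ^ (ε / 2) = (k : ℝ) ^ ε := by
    rw [← Real.rpow_add hkpos]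
    congr 1
    ring
  have e4 : (1 : ℝ) ≤ (k : ℝ) ^ (ε / 2) := le_trans (le_max_right _ _) e2
  have e5 : B ≤ (k : ℝ) ^ (ε / 2) := le_trans (le_max_left _ _) e2
  have e6 : (k : ℝ) ^ (ε / 2) ≤ (k : ℝ) ^ ε := by nlinarith
  refine ⟨fun x hx hxr => ?_, ?_, e5.trans e6⟩
  · have e7 : x ≤ (k : ℝ) ^ (ε / 2) := by
      have h1 : x = (x ^ r) ^ ((1 : ℝ) / r) := by
        rw [← Real.rpow_natCast, ← Real.rpow_mul hx, mul_one_div_cancel hr0.ne', Real.rpow_one]
      rw [h1]
      calc (x ^ r) ^ ((1 : ℝ) / r) ≤ (k : ℝ) ^ ((1 : ℝ) / r) :=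
            Real.rpow_le_rpow (pow_nonneg hx r) hxr (by positivity)
        _ ≤ (k : ℝ) ^ (ε / 2) := by
            apply Real.rpow_le_rpow_of_exponent_le (by linarith)
            rw [div_le_div_iff₀ hr0 two_pos, one_mul]
            rw [div_lt_iff₀ hε] at hr
            linarith
    refine ⟨?_, e7.trans e6⟩
    calc x * Real.log k ≤ (k : ℝ) ^ (ε / 2) * (k : ℝ) ^ (ε / 2) :=
          mul_le_mul e7 e1 hlogpos.le (by positivity)
      _ = (k : ℝ) ^ ε := e3
  · rcases le_total 0 B with hB | hB
    · calc B * Real.log k ≤ (k : ℝ) ^ (ε / 2) * (k : ℝ) ^ (ε / 2) :=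
            mul_le_mul e5 e1 hlogpos.le (by positivity)
        _ = (k : ℝ) ^ ε := e3
    · have : B * Real.log k ≤ 0 := mul_nonpos_of_nonpos_of_nonneg hB hlogpos.le
      have : (0 : ℝ) ≤ (k : ℝ) ^ ε := by positivity
      linarith

lemma clique_of {V : Type} (G : SimpleGraph V) (S : Finset V) (t : Bool) {k : ℕ}
    (hS : k ≤ S.card) (h : ∀ x ∈ S, ∀ y ∈ S, x ≠ y → (G.Adj x y ↔ t = true))
    (h1 : G.CliqueFree k) (h2 : Gᶜ.CliqueFree k) : False := by
  classical
  obtain ⟨T, hT, hTc⟩ := Finset.exists_subset_card_eq hS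
  cases t with
  | true =>
    exact h1 T ⟨fun x hx y hy hxy => (h x (hT hx) y (hT hy) hxy).2 rfl, hTc⟩
  | false =>
    refine h2 T ⟨fun x hx y hy hxy => ?_, hTc⟩
    rw [SimpleGraph.compl_adj]
    refine ⟨hxy, fun hadj => ?_⟩
    have := (h x (hT hx) y (hT hy) hxy).1 hadj
    exact absurd this (by decide)

/-- **Main result.** -/
theorem result :
    -- (1) any finite number of colours, any vertex set that contains a hypercube on which the
    -- colour is a function of the Hamming distance
    (∀ (κ : Type) [Finite κ] (r : ℕ), ∃ M₀ : ℕ, ∀ M ≥ M₀, ∀ (V : Type) (χ : V → V → κ)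
      (ψ : (Fin M → Bool) → V), Function.Injective ψ → ∀ c : ℕ → κ,
      (∀ a b, a ≠ b → χ (ψ a) (ψ b) = c (hammingDist a b)) →
      ∃ S : Finset V, M ^ r ≤ S.card ∧ ∃ t : κ, ∀ x ∈ S, ∀ y ∈ S, x ≠ y → χ x y = t) ∧
    -- (2) colourings of the `m`-subsets of `[N]` (any finite number of colours) that depend only
    -- on `|A ∩ B|`
    (∀ (κ : Type) [Finite κ] (r : ℕ), ∃ N₀ : ℕ, ∀ N ≥ N₀, ∀ m : ℕ, 1 ≤ m → m < N →
      ∀ c : ℕ → κ, ∃ S : Finset (Finset (Fin N)), (∀ X ∈ S, X.card = m) ∧
      (Real.log (N.choose m)) ^ r ≤ S.card ∧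
      ∃ t : κ, ∀ X ∈ S, ∀ Y ∈ S, X ≠ Y → c (X ∩ Y).card = t) ∧
    -- (3) two colours: if there is no monochromatic `K_k` then `log n ≤ k ^ ε`, `n = C(N, m)`
    (∀ ε : ℝ, 0 < ε → ∃ K : ℕ, ∀ k ≥ K, ∀ N m : ℕ, ∀ (c : ℕ → Prop)
      (G : SimpleGraph {A : Finset (Fin N) // A.card = m}),
      (∀ A B, A ≠ B → (G.Adj A B ↔ c (A.1 ∩ B.1).card)) →
      G.CliqueFree k → Gᶜ.CliqueFree k → Real.log (N.choose m) ≤ (k : ℝ) ^ ε) ∧
    -- (4) the same for `[q]^M` and the Hamming distance, uniformly in `q`; `n = q ^ M`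
    (∀ ε : ℝ, 0 < ε → ∃ K : ℕ, ∀ k ≥ K, ∀ q M : ℕ, ∀ (c : ℕ → Prop)
      (G : SimpleGraph (Fin M → Fin q)),
      (∀ a b, a ≠ b → (G.Adj a b ↔ c (hammingDist a b))) →
      G.CliqueFree k → Gᶜ.CliqueFree k → Real.log ((q : ℝ) ^ M) ≤ (k : ℝ) ^ ε) := by
  classical
  refine ⟨fun κ _ r => cube κ r, fun κ _ r => johnson κ r, ?_, ?_⟩
  · intro ε hε
    obtain ⟨r, hr1, hr⟩ := small_pow ε hε
    obtain ⟨N0, hN0⟩ := johnson Bool r
    obtain ⟨K, hK2, hK⟩ := hr N0
    refine ⟨K, fun k hk N m c G hG h1 h2 => ?_⟩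
    obtain ⟨hx, -, hB⟩ := hK k hk
    have hk0 : (0 : ℝ) ≤ (k : ℝ) ^ ε := by positivity
    by_cases hm : 1 ≤ m ∧ m < N
    · by_cases hN : N0 ≤ N
      · obtain ⟨S, h3, h4, t, h5⟩ := hN0 N hN m hm.1 hm.2 (fun i => decide (c i))
        have hlt : S.card < k := by
          by_contra hge
          push Not at hge
          refine clique_of G (S.subtype (fun A => A.card = m)) t ?_ ?_ h1 h2
          · rw [Finset.card_subtype, Finset.filter_true_of_mem h3]
            exact hge
          · intro A hA B hB hAB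
            rw [Finset.mem_subtype] at hA hB
            have h6 := h5 A.1 hA B.1 hB (fun h => hAB (Subtype.ext h))
            rw [hG A B hAB, ← h6, decide_eq_true_eq]
        have h7 : (Real.log (N.choose m)) ^ r ≤ (k : ℝ) := by
          refine h4.trans ?_
          exact_mod_cast hlt.le
        exact (hx _ (Real.log_natCast_nonneg _) h7).2
      · have h3 : Real.log (N.choose m) ≤ N := by
          have h4 : (N.choose m : ℝ) ≤ (2 : ℝ) ^ N := by
            exact_mod_cast Nat.choose_le_two_pow N m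
          have hpos : (0 : ℝ) < (N.choose m : ℝ) := by
            exact_mod_cast Nat.choose_pos (by omega)
          calc Real.log (N.choose m) ≤ Real.log ((2 : ℝ) ^ N) := Real.log_le_log hpos h4
            _ = N * Real.log 2 := by rw [Real.log_pow]
            _ ≤ N * 1 := by
                apply mul_le_mul_of_nonneg_left _ (Nat.cast_nonneg N)
                have := Real.log_two_lt_d9
                linarith
            _ = N := mul_one _
        have h5 : (N : ℝ) ≤ N0 := by exact_mod_cast (by omega : N ≤ N0)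
        linarith
    · have h3 : N.choose m ≤ 1 := by
        rcases Nat.lt_or_ge N m with h | h
        · rw [Nat.choose_eq_zero_of_lt h]; omega
        · have : m = 0 ∨ m = N := by omega
          rcases this with rfl | rfl <;> simp
      have h4 : Real.log (N.choose m) ≤ 0 := by
        apply Real.log_nonpos (Nat.cast_nonneg _)
        exact_mod_cast h3
      linarith
  · intro ε hε
    obtain ⟨r, hr1, hr⟩ := small_pow ε hε
    obtain ⟨M0, hM0⟩ := cube Bool r
    obtain ⟨K, hK2, hK⟩ := hr M0
    refine ⟨K, fun k hk q M c G hG h1 h2 => ?_⟩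
    obtain ⟨hx, hB, -⟩ := hK k hk
    have hk0 : (0 : ℝ) ≤ (k : ℝ) ^ ε := by positivity
    have hk2 : (2 : ℝ) ≤ k := by exact_mod_cast (by omega : 2 ≤ k)
    have hlogk : 0 ≤ Real.log k := Real.log_nonneg (by linarith)
    rw [Real.log_pow]
    by_cases hM1 : M = 0
    · subst hM1
      simpa using hk0
    by_cases hq2 : q < 2
    · have h3 : Real.log q = 0 := by
        have : q = 0 ∨ q = 1 := by omega
        rcases this with rfl | rfl <;> simp
      rw [h3, mul_zero]
      exact hk0
    push Not at hq2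
    -- constant words
    have hqk : q < k := by
      by_contra hge
      push Not at hge
      have hinj : Function.Injective (fun a : Fin q => (fun _ : Fin M => a)) := by
        intro a b hab
        exact congrFun hab ⟨0, by omega⟩
      refine clique_of G (Finset.univ.image (fun a : Fin q => (fun _ : Fin M => a)))
        (decide (c M)) ?_ ?_ h1 h2
      · rw [Finset.card_image_of_injective _ hinj, Finset.card_univ, Fintype.card_fin]
        exact hge
      · intro x hx y hy hxy
        rw [Finset.mem_image] at hx hy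
        obtain ⟨a, -, rfl⟩ := hx
        obtain ⟨b, -, rfl⟩ := hy
        have hab : a ≠ b := fun h => hxy (by rw [h])
        rw [hG _ _ hxy, decide_eq_true_eq]
        have : hammingDist (fun _ : Fin M => a) (fun _ : Fin M => b) = M := by
          simp [hammingDist, hab]
        rw [this]
    have hlogq : Real.log q ≤ Real.log k := by
      apply Real.log_le_log
      · exact_mod_cast (by omega : 0 < q)
      · exact_mod_cast hqk.le
    have hlogq0 : 0 ≤ Real.log q := Real.log_natCast_nonneg q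
    by_cases hM : M0 ≤ M
    · obtain ⟨S, h3, t, h4⟩ := hM0 M hM (Fin M → Fin q)
        (fun x y => decide (c (hammingDist x y)))
        (fun a i => if a i then ⟨1, by omega⟩ else ⟨0, by omega⟩)
        (by
          intro a b hab
          funext i
          have := congrFun hab i
          simp only at this
          cases ha : a i <;> cases hb : b i <;> simp_all)
        (fun i => decide (c i))
        (by
          intro a b _
          congr 2
          unfold hammingDist
          congr 1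
          ext i
          simp only [Finset.mem_filter, Finset.mem_univ, true_and]
          cases ha : a i <;> cases hb : b i <;> simp)
      have hlt : S.card < k := by
        by_contra hge
        push Not at hge
        refine clique_of G S t hge ?_ h1 h2
        intro x hx y hy hxy
        rw [hG x y hxy, ← h4 x hx y hy hxy, decide_eq_true_eq]
      have h5 : (M : ℝ) ^ r ≤ k := by exact_mod_cast (h3.trans hlt.le)
      calc (M : ℝ) * Real.log q ≤ M * Real.log k :=
            mul_le_mul_of_nonneg_left hlogq (Nat.cast_nonneg M)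
        _ ≤ (k : ℝ) ^ ε := (hx M (Nat.cast_nonneg M) h5).1
    · have h5 : (M : ℝ) ≤ M0 := by exact_mod_cast (by omega : M ≤ M0)
      calc (M : ℝ) * Real.log q ≤ M0 * Real.log k :=
            mul_le_mul h5 hlogq hlogq0 (Nat.cast_nonneg _)
        _ ≤ (k : ℝ) ^ ε := hB

end Pool.Agent.Results.MP_28724c_co.DistanceColourings
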