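import Pool.Agent.X65.RamDeg.Limit

/-!
# The Ramsey function of colourings of bounded degree

A two-colouring of the complete graph on the `2^m` bit vectors of length `m` can be written as a
polynomial `P(x, y)` over the field with two elements.  Let `M(d, k)` be the largest `m` for which
there is such a colouring of degree at most `d` without monochromatic clique on `k` vertices
(`maxBits`), so `log n = M(d, k) log 2`.

* For every fixed `d ≥ 2` we have `log M(d, k) / log log₂ k → d - 1`, that is
  `log n = (log k) ^ (d - 1 + o(1))`.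
* Uniformly in the degree, `M(d, 2^κ) < κ + 3 d ∑_{j < d} C(2κ, j)` and
  `M(2t, 2^κ) ≥ ⌊∑_{j ≤ t} C(κ, j) / 2⌋`.
* So the least degree of colourings with `log n ≥ c k` is of the order `log k`: degree at most
  `(log₂ k) / 5` forces `m ≤ k^(19/20)`, and degree at most `log₂ k - 1` suffices for `m ≥ k / 16`.

Upper bound: greedily (Chevalley-Warning) one finds a subspace `U` such that `P` is constant on
`U × U`.  Lower bound: `P(x, y) = ∑ (y_i q_i(x) + x_i q_i(y))` with random polynomials `q_i` of
degree `d - 1`.  Every set `A` of `2^κ` points contains a large set `Y` all of whose large subsets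
span a space of almost the same dimension `L` as `Y`; such sets have Hilbert functions at least
`L κ^(d-2-ε)` in degree `d - 1`, and a first moment argument over a basis of the span of `Y` in `Y`
and the sequences in `Y` which are independent for polynomials of degree `d - 1` finishes the proof.
-/

namespace Pool.Agent.Results.MP_28724c_co.LowDegree

open MvPolynomial Pool.Agent.X65.RamDeg Filter Topology

theorem result :
    -- (1) the growth exponent for every fixed degree
    (∀ d : ℕ, 2 ≤ d → Tendsto (fun k : ℕ => Real.log (maxBits d k) / Real.log (Real.logb 2 k))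
      atTop (𝓝 ((d : ℝ) - 1))) ∧
    -- (2) `maxBits d k` is the largest number of bits
    (∀ d k : ℕ, 2 ≤ k → HasColouring d k (maxBits d k) ∧
      ∀ m, HasColouring d k m → m ≤ maxBits d k) ∧
    -- (3) upper bound for every degree, also for `2^m` vertices of a larger colouring
    (∀ (V : Type) (G : SimpleGraph V) (m d k κ : ℕ) (φ : (Fin m → ZMod 2) → V)
      (P : MvPolynomial (Fin m ⊕ Fin m) (ZMod 2)), Function.Injective φ → P.totalDegree ≤ d →
      Computes G φ P → G.CliqueFree k ∧ Gᶜ.CliqueFree k → k ≤ 2 ^ κ →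
      m < κ + 3 * d * ∑ j ∈ Finset.range d, (2 * κ).choose j) ∧
    -- (4) lower bound for every degree
    (∀ t κ m : ℕ, 3 ≤ ∑ j ∈ Finset.range (t + 1), κ.choose j →
      2 * m ≤ ∑ j ∈ Finset.range (t + 1), κ.choose j → HasColouring (2 * t) (2 ^ κ) m) ∧
    -- (5) degree at most `(log₂ k) / 5`
    (∃ K₀ : ℕ, ∀ (V : Type) (G : SimpleGraph V) (m d k : ℕ) (φ : (Fin m → ZMod 2) → V)
      (P : MvPolynomial (Fin m ⊕ Fin m) (ZMod 2)), Function.Injective φ → P.totalDegree ≤ d →
      Computes G φ P → G.CliqueFree k ∧ Gᶜ.CliqueFree k → K₀ ≤ k → 2 ^ (5 * d) ≤ k →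
      m ^ 20 ≤ k ^ 19) ∧
    -- (6) degree at most `log₂ k - 1` suffices for `log₂ n ≥ k / 16`
    (∀ k : ℕ, 8 ≤ k → ∃ m D : ℕ, k ≤ 16 * m ∧ 2 ^ (D + 1) ≤ k ∧ HasColouring D k m) := by
  refine ⟨tendsto_maxBits, fun d k hk => ⟨maxBits_mem hk, fun m hm => le_maxBits hm⟩, ?_, ?_,
    growth, ?_⟩
  · intro V G m d k κ φ P hφ hP hC hG hk
    exact small_of_noMono G φ hφ P hP hC hG hk
  · intro t κ m h3 hm
    obtain ⟨G, P, hP, hadj, hG⟩ := exists_colouring h3 hm
    exact ⟨G, P, hP, fun x y _ => hadj x y, hG⟩
  · intro k hk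
    obtain ⟨m, D, G, P, h1, h2, hP, hadj, hG⟩ := exists_linear k hk
    exact ⟨m, D, h1, h2, G, P, hP, fun x y _ => hadj x y, hG⟩

end Pool.Agent.Results.MP_28724c_co.LowDegree
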